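import Pool.Agent.N566.VV.Defs

/-!
# Project VV (helper566), part BD (helper897): the local weights near `v = 1`
-/

set_option autoImplicit false

namespace Pool.Agent.N897.VV

open Pool.Agent.N566.VV
open Pool.Agent.H550R3.Jones (br brf Adm crossP crossN)
open Finset Filter Topology Asymptotics

/-- `f` agrees near `0` (but not at `0`) with a function which is differentiable at `0` and has the
value `a` there -/
def L (f : ℂ → ℂ) (a : ℂ) : Prop :=
  ∃ g : ℂ → ℂ, DifferentiableAt ℂ g 0 ∧ g 0 = a ∧ f =ᶠ[𝓝[≠] 0] g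

theorem L.congr {f f' : ℂ → ℂ} {a : ℂ} (h : L f a) (e : f' =ᶠ[𝓝[≠] 0] f) : L f' a := by
  obtain ⟨g, h1, h2, h3⟩ := h
  exact ⟨g, h1, h2, e.trans h3⟩

theorem L.congr_val {f : ℂ → ℂ} {a b : ℂ} (h : L f a) (e : a = b) : L f b := e ▸ h

theorem L.const (a : ℂ) : L (fun _ => a) a :=
  ⟨fun _ => a, differentiableAt_const a, rfl, EventuallyEq.rfl⟩

theorem L.mul {f f' : ℂ → ℂ} {a a' : ℂ} (h : L f a) (h' : L f' a') :
    L (fun x => f x * f' x) (a * a') := by
  obtain ⟨g, h1, h2, h3⟩ := h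
  obtain ⟨g', h1', h2', h3'⟩ := h'
  exact ⟨fun x => g x * g' x, h1.mul h1', by simp only [h2, h2'], h3.mul h3'⟩

theorem L.sub {f f' : ℂ → ℂ} {a a' : ℂ} (h : L f a) (h' : L f' a') :
    L (fun x => f x - f' x) (a - a') := by
  obtain ⟨g, h1, h2, h3⟩ := h
  obtain ⟨g', h1', h2', h3'⟩ := h'
  exact ⟨fun x => g x - g' x, h1.sub h1', by simp only [h2, h2'], h3.sub h3'⟩

theorem L.inv {f : ℂ → ℂ} {a : ℂ} (h : L f a) (ha : a ≠ 0) : L (fun x => (f x)⁻¹) a⁻¹ := by
  obtain ⟨g, h1, h2, h3⟩ := h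
  exact ⟨fun x => (g x)⁻¹, h1.inv (by rw [h2]; exact ha), by simp only [h2], h3.inv⟩

theorem L.div {f f' : ℂ → ℂ} {a a' : ℂ} (h : L f a) (h' : L f' a') (ha : a' ≠ 0) :
    L (fun x => f x / f' x) (a / a') := by
  simp only [div_eq_mul_inv]
  exact h.mul (h'.inv ha)

theorem L.prod {ι : Type} (s : Finset ι) (f : ι → ℂ → ℂ) (a : ι → ℂ) (h : ∀ i, L (f i) (a i)) :
    L (fun x => ∏ i ∈ s, f i x) (∏ i ∈ s, a i) := by
  classical
  induction s using Finset.induction_on with
  | empty => simpa using L.const 1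
  | insert i s hi ih =>
    simp only [Finset.prod_insert hi]
    exact (h i).mul ih

theorem L.bd {f : ℂ → ℂ} {a : ℂ} (h : L f a) : f =O[𝓝[≠] 0] fun _ => (1 : ℂ) := by
  obtain ⟨g, h1, -, h3⟩ := h
  have h4 : Tendsto g (𝓝[≠] 0) (𝓝 (g 0)) := h1.continuousAt.tendsto.mono_left nhdsWithin_le_nhds
  exact (h4.isBigO_one ℂ).congr' h3.symm EventuallyEq.rfl

theorem L.oh {f : ℂ → ℂ} (h : L f 0) : f =O[𝓝[≠] 0] fun h => h := by
  obtain ⟨g, h1, h2, h3⟩ := h
  have h4 := h1.hasDerivAt.isBigO_sub.mono (nhdsWithin_le_nhds (s := {0}ᶜ))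
  simp only [h2, sub_zero] at h4
  exact h4.congr' h3.symm EventuallyEq.rfl

theorem L_zpow (n : ℤ) : L (fun h => Complex.exp h ^ n) 1 := by
  refine ⟨fun h => Complex.exp (n * h), by fun_prop, by simp, ?_⟩
  exact Eventually.of_forall fun h => (Complex.exp_int_mul h n).symm

theorem L_pow (n : ℕ) : L (fun h => Complex.exp h ^ n) 1 := by
  refine (L_zpow n).congr ?_
  exact Eventually.of_forall fun h => (zpow_natCast _ _).symm

theorem L_br (n : ℤ) : L (fun h => br (Complex.exp h) n) 0 := by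
  have h := (L_zpow n).sub (L_zpow (-n))
  rw [sub_self] at h
  exact h

theorem L_brd (n : ℤ) : L (fun h => br (Complex.exp h) n / h) (2 * n) := by
  obtain ⟨f, hf⟩ : ∃ f : ℂ → ℂ, f = fun h => Complex.exp (n * h) - Complex.exp (-(n * h)) :=
    ⟨_, rfl⟩
  have hd : Differentiable ℂ f := by
    rw [hf]
    fun_prop
  have hf0 : f 0 = 0 := by
    rw [hf]
    simp
  have hder : HasDerivAt f (2 * n) 0 := by
    have h1 : HasDerivAt (fun h : ℂ => (n : ℂ) * h) n 0 := by
      simpa using (hasDerivAt_id (0 : ℂ)).const_mul (n : ℂ)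
    have h2 := h1.cexp.sub h1.neg.cexp
    rw [hf]
    refine h2.congr_deriv ?_
    simp
    ring
  refine ⟨dslope f 0, ?_, ?_, ?_⟩
  · have h1 := (Complex.differentiableOn_dslope (f := f) (c := 0) (s := Set.univ)
      Filter.univ_mem).2 hd.differentiableOn
    exact h1.differentiableAt Filter.univ_mem
  · rw [dslope_same, hder.deriv]
  · filter_upwards [self_mem_nhdsWithin] with h hh
    rw [dslope_of_ne _ hh, slope_def_field, hf0, hf]
    have e1 : Complex.exp (n * h) = Complex.exp h ^ n := Complex.exp_int_mul h n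
    have e2 : Complex.exp (-(n * h)) = Complex.exp h ^ (-n) := by
      rw [← Complex.exp_int_mul]
      congr 1
      push_cast
      ring
    simp only [e1, e2, sub_zero]
    rfl

/-- the limit of `{j}! / h ^ j` -/
noncomputable def cf (j : ℕ) : ℂ := ∏ i ∈ range j, (2 * (((i : ℤ) + 1 : ℤ) : ℂ))

theorem cf_ne (j : ℕ) : cf j ≠ 0 := by
  unfold cf
  rw [Finset.prod_ne_zero_iff]
  intro i _
  apply mul_ne_zero two_ne_zero
  exact_mod_cast (by positivity : (i : ℤ) + 1 ≠ 0)

theorem L_brf (j : ℕ) : L (fun h => brf (Complex.exp h) j / h ^ j) (cf j) := by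
  have h1 := L.prod (range j) (fun i h => br (Complex.exp h) ((i : ℤ) + 1) / h)
    (fun i => 2 * (((i : ℤ) + 1 : ℤ) : ℂ)) (fun i => L_brd ((i : ℤ) + 1))
  refine h1.congr (Eventually.of_forall fun h => ?_)
  simp only [Finset.prod_div_distrib, Finset.prod_const, Finset.card_range]
  rfl

theorem L_ratio (a b m : ℕ) (h : a + b = m) :
    L (fun h => brf (Complex.exp h) a * brf (Complex.exp h) b / brf (Complex.exp h) m)
      (cf a * cf b / cf m) := by
  have h1 := ((L_brf a).mul (L_brf b)).div (L_brf m) (cf_ne m)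
  refine h1.congr ?_
  filter_upwards [self_mem_nhdsWithin] with z hz
  have hz' : z ≠ 0 := hz
  rw [← h, pow_add]
  have h2 : z ^ a ≠ 0 := pow_ne_zero _ hz'
  have h3 : z ^ b ≠ 0 := pow_ne_zero _ hz'
  field_simp

theorem L_ratio' (a b m : ℕ) (h : a + b = m) :
    L (fun h => brf (Complex.exp h) m / (brf (Complex.exp h) a * brf (Complex.exp h) b))
      (cf m / (cf a * cf b)) := by
  have h1 := (L_ratio a b m h).inv
    (div_ne_zero (mul_ne_zero (cf_ne a) (cf_ne b)) (cf_ne m))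
  simp only [inv_div] at h1
  exact h1

theorem L_kap (N j : ℕ) (hj : j ≤ N - 1) : ∃ a : ℂ, a ≠ 0 ∧
    L (fun h => kap N (Complex.exp h) j) a := by
  have h1 := ((L.const ((-1) ^ j)).mul (L_ratio j (N - 1 - j) (N - 1) (by omega))).mul
    (L_zpow ((j : ℤ) * ((N : ℤ) - 2 - j)))
  refine ⟨_, ?_, h1⟩
  exact mul_ne_zero (mul_ne_zero (pow_ne_zero _ (neg_ne_zero.2 one_ne_zero))
    (div_ne_zero (mul_ne_zero (cf_ne _) (cf_ne _)) (cf_ne _))) one_ne_zero

/-- the common limit of the crossings -/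
noncomputable def dl {N : ℕ} (p q : Fin N × Fin N) : ℂ := if p.1 = q.2 ∧ p.2 = q.1 then 1 else 0

theorem cf_zero : cf 0 = 1 := by
  unfold cf
  simp

theorem L_crossP (N : ℕ) (p q : Fin N × Fin N) :
    L (fun h => crossP N (Complex.exp h) p q) (dl p q) := by
  unfold crossP
  by_cases hc : (p.1 : ℕ) + p.2 = q.1 + q.2 ∧ (q.2 : ℕ) ≤ p.1
  · simp only [if_pos hc]
    refine L.congr_val ((((L_zpow _).mul (L_pow _)).mul (L_ratio' (q.2 : ℕ) ((p.1 : ℕ) - q.2)
      (p.1 : ℕ) (by omega))).mul (L.prod _ _ (fun _ => 0) fun t => L_br _)) ?_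
    unfold dl
    by_cases h2 : (p.1 : ℕ) = q.2
    · have h3 : (p.2 : ℕ) = q.1 := by omega
      rw [if_pos ⟨Fin.ext h2, Fin.ext h3⟩, h2, Nat.sub_self, cf_zero]
      have := cf_ne (q.2 : ℕ)
      simp [this]
    · rw [if_neg (fun h => h2 (congrArg Fin.val h.1)), Finset.prod_const, Finset.card_range,
        zero_pow (by omega), mul_zero]
  · simp only [if_neg hc]
    refine L.congr_val (L.const 0) ?_
    unfold dl
    rw [if_neg]
    rintro ⟨h1, h2⟩
    apply hc
    rw [h1, h2]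
    exact ⟨add_comm _ _, le_rfl⟩

theorem L_crossN (N : ℕ) (p q : Fin N × Fin N) :
    L (fun h => crossN N (Complex.exp h) p q) (dl p q) := by
  unfold crossN
  by_cases hc : (p.1 : ℕ) + p.2 = q.1 + q.2 ∧ (q.1 : ℕ) ≤ p.2
  · simp only [if_pos hc]
    refine L.congr_val (((((L.const _).mul (L_zpow _)).div (L_pow _) one_ne_zero).mul
      (L_ratio' (q.1 : ℕ) ((p.2 : ℕ) - q.1) (p.2 : ℕ) (by omega))).mul
      (L.prod _ _ (fun _ => 0) fun t => L_br _)) ?_
    unfold dl
    by_cases h2 : (p.2 : ℕ) = q.1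
    · have h3 : (p.1 : ℕ) = q.2 := by omega
      rw [if_pos ⟨Fin.ext h3, Fin.ext h2⟩, h2, Nat.sub_self, cf_zero]
      have := cf_ne (q.1 : ℕ)
      simp [this]
    · rw [if_neg (fun h => h2 (congrArg Fin.val h.2)), Finset.prod_const, Finset.card_range,
        zero_pow (by omega), mul_zero]
  · simp only [if_neg hc]
    refine L.congr_val (L.const 0) ?_
    unfold dl
    rw [if_neg]
    rintro ⟨h1, h2⟩
    apply hc
    rw [h1, h2]
    exact ⟨add_comm _ _, le_rfl⟩

theorem s_bd : Pool.Agent.N566.VV.S_BD := by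
  intro N _
  have kP : ∀ p q, L (fun h : ℂ => ((datJ N (Complex.exp h)).k • (datJ N (Complex.exp h)).P) p q)
      (dl p q) := by
    intro p q
    refine L.congr_val ((L_zpow (-fr N)).mul ((L_zpow (fr N)).mul (L_crossP N p q))) ?_
    ring
  have k'P : ∀ p q, L (fun h : ℂ => ((datJ N (Complex.exp h)).k' • (datJ N (Complex.exp h)).P) p q)
      (dl p q) := by
    intro p q
    refine L.congr_val ((L_zpow (fr N)).mul ((L_zpow (fr N)).mul (L_crossP N p q))) ?_
    ring
  have kQ : ∀ p q, L (fun h : ℂ => ((datJ N (Complex.exp h)).k • (datJ N (Complex.exp h)).Q) p q)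
      (dl p q) := by
    intro p q
    refine L.congr_val ((L_zpow (-fr N)).mul ((L_zpow (-fr N)).mul (L_crossN N p q))) ?_
    ring
  have k'Q : ∀ p q, L (fun h : ℂ => ((datJ N (Complex.exp h)).k' • (datJ N (Complex.exp h)).Q) p q)
      (dl p q) := by
    intro p q
    refine L.congr_val ((L_zpow (fr N)).mul ((L_zpow (-fr N)).mul (L_crossN N p q))) ?_
    ring
  refine ⟨fun x => ?_, fun x => ?_, fun p q => (kP p q).bd, fun p q => (k'P p q).bd,
    fun p q => (kQ p q).bd, fun p q => (k'Q p q).bd, fun p q => ?_, fun p q => ?_⟩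
  · obtain ⟨a, ha, h⟩ := L_kap N (Fin.rev x : Fin N) (by
      have := (Fin.rev x).2
      omega)
    exact (h.inv ha).bd
  · obtain ⟨a, ha, h⟩ := L_kap N x (by
      have := x.2
      omega)
    exact h.bd
  · have h := (kP p q).sub (k'Q p q)
    rw [sub_self] at h
    exact h.oh
  · have h := (k'P p q).sub (kQ p q)
    rw [sub_self] at h
    exact h.oh

end Pool.Agent.N897.VV
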